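import Mathlib
import Pool.Agent.H39.MonoidAct

set_option autoImplicit false

namespace Pool.Agent.Results.MP_c1fe20_lc.MonoidAction

open MeasureTheory

/-- Every analytic quasi-order on a standard Borel space is Borel bi-reducible with the
quasi-order induced by a continuous functional action of a Polish monoid on a Polish space. -/
theorem result (X : Type) [TopologicalSpace X] [PolishSpace X] [MeasurableSpace X] [BorelSpace X]
    (R : X → X → Prop) (hrefl : ∀ x, R x x) (htrans : ∀ x y z, R x y → R y z → R x z)
    (hR : AnalyticSet {p : X × X | R p.1 p.2}) :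
    ∃ (M : Type) (_ : Monoid M) (_ : TopologicalSpace M) (_ : PolishSpace M) (_ : ContinuousMul M)
      (Y : Type) (_ : TopologicalSpace Y) (_ : PolishSpace Y) (_ : MeasurableSpace Y)
      (_ : BorelSpace Y) (a : M → Y → Y),
      Continuous (fun p : M × Y => a p.1 p.2) ∧
      (∀ y, a 1 y = y) ∧
      (∀ g h y, a h (a g y) = a (h * g) y) ∧
      (∃ f : X → Y, Measurable f ∧ ∀ x x', R x x' ↔ ∃ g, a g (f x) = f x') ∧
      (∃ f : Y → X, Measurable f ∧ ∀ y y', (∃ g, a g y = y') ↔ R (f y) (f y')) := by
  rcases isEmpty_or_nonempty X with hX | hX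
  · exact ⟨Unit, inferInstance, inferInstance, inferInstance, inferInstance, X, inferInstance,
      inferInstance, inferInstance, inferInstance, fun _ y => y, continuous_snd, fun _ => rfl,
      fun _ _ _ => rfl, ⟨id, measurable_id, fun x => isEmptyElim x⟩,
      ⟨id, measurable_id, fun x => isEmptyElim x⟩⟩
  · obtain ⟨a, ha⟩ := Pool.Agent.H39.MonoidAct.main X R hrefl htrans hR
    exact ⟨Pool.Agent.H39.MonoidAct.M, inferInstance, inferInstance, inferInstance, inferInstance,
      ℕ → ℕ, inferInstance, inferInstance, inferInstance, inferInstance, a, ha⟩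

end Pool.Agent.Results.MP_c1fe20_lc.MonoidAction
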